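import Mathlib

/-!
# Series of smooth functions on an open set, all derivatives
-/

set_option autoImplicit false

open Filter Topology Metric Set

namespace Q72.NB

section

variable {E F : Type*} [NormedAddCommGroup E] [NormedSpace ℂ E]
  [NormedAddCommGroup F] [NormedSpace ℂ F] [CompleteSpace F]

/-- Termwise differentiation of all orders on an open preconnected set. -/
lemma iter_tsum {s : Set E} (hs : IsOpen s) (hp : IsPreconnected s) (t : ℕ → E → F)
    (ht : ∀ j, ContDiff ℂ (⊤ : ℕ∞) (t j)) (v : ℕ → ℕ → ℝ) (hv : ∀ k, Summable (v k))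
    (hb : ∀ k j, ∀ x ∈ s, ‖iteratedFDeriv ℂ k (t j) x‖ ≤ v k j) (k : ℕ) :
    ∀ x ∈ s, iteratedFDeriv ℂ k (fun y => ∑' j, t j y) x = ∑' j, iteratedFDeriv ℂ k (t j) x := by
  induction k with
  | zero =>
    intro x hx
    ext1 m
    have h1 : Summable fun j => iteratedFDeriv ℂ 0 (t j) x :=
      Summable.of_norm_bounded (hv 0) (fun j => hb 0 j x hx)
    rw [iteratedFDeriv_zero_apply]
    have h2 := ((ContinuousMultilinearMap.apply ℂ (fun _ : Fin 0 => E) F m).hasSum
      h1.hasSum).tsum_eq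
    have h3 : (ContinuousMultilinearMap.apply ℂ (fun _ : Fin 0 => E) F m)
      (∑' j, iteratedFDeriv ℂ 0 (t j) x) = (∑' j, iteratedFDeriv ℂ 0 (t j) x) m := rfl
    rw [← h3, ← h2]
    rfl
  | succ k ih =>
    intro x hx
    have hd : ∀ j, ∀ y ∈ s, HasFDerivAt (iteratedFDeriv ℂ k (t j))
        (fderiv ℂ (iteratedFDeriv ℂ k (t j)) y) y := by
      intro j y _
      have : Differentiable ℂ (iteratedFDeriv ℂ k (t j)) :=
        (ht j).differentiable_iteratedFDeriv (by exact_mod_cast ENat.natCast_lt_top k)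
      exact (this y).hasFDerivAt
    have hbd : ∀ j, ∀ y ∈ s, ‖fderiv ℂ (iteratedFDeriv ℂ k (t j)) y‖ ≤ v (k + 1) j := by
      intro j y hy
      rw [norm_fderiv_iteratedFDeriv]
      exact hb (k + 1) j y hy
    have hsum0 : Summable fun j => iteratedFDeriv ℂ k (t j) x :=
      Summable.of_norm_bounded (hv k) (fun j => hb k j x hx)
    have h1 := hasFDerivAt_tsum_of_isPreconnected (hv (k + 1)) hs hp hd hbd hx hsum0 hx
    have h2 : iteratedFDeriv ℂ k (fun y => ∑' j, t j y) =ᶠ[𝓝 x]
        fun y => ∑' j, iteratedFDeriv ℂ k (t j) y := by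
      filter_upwards [hs.mem_nhds hx] with y hy using ih y hy
    have h3 : fderiv ℂ (iteratedFDeriv ℂ k (fun y => ∑' j, t j y)) x =
        ∑' j, fderiv ℂ (iteratedFDeriv ℂ k (t j)) x := by
      rw [h2.fderiv_eq]
      exact h1.fderiv
    rw [iteratedFDeriv_succ_eq_comp_left, Function.comp_apply, h3]
    have h5 : ∀ j, iteratedFDeriv ℂ (k + 1) (t j) x =
      (continuousMultilinearCurryLeftEquiv ℂ (fun _ : Fin (k + 1) => E) F).symm
        (fderiv ℂ (iteratedFDeriv ℂ k (t j)) x) := by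
      intro j
      rw [iteratedFDeriv_succ_eq_comp_left, Function.comp_apply]
    simp only [h5]
    exact (continuousMultilinearCurryLeftEquiv ℂ (fun _ : Fin (k + 1) =>
      E) F).symm.toContinuousLinearEquiv.map_tsum

end

/-- iterated derivative of a power of a linear function, one variable -/
lemma iter_pow (a b : ℂ) (M m : ℕ) : iteratedDeriv m (fun l : ℂ => (a + l * b) ^ M) =
    fun l => (M.descFactorial m : ℂ) * (a + l * b) ^ (M - m) * b ^ m := by
  induction m with
  | zero => ext l; simp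
  | succ m ih =>
    rw [iteratedDeriv_succ, ih]
    ext l
    have h1 : HasDerivAt (fun l : ℂ => a + l * b) b l := by
      have := ((hasDerivAt_id l).mul_const b).const_add a
      simpa using this
    have h2 := ((h1.pow (M - m)).const_mul (M.descFactorial m : ℂ)).mul_const (b ^ m)
    have h3 := h2.deriv
    have h4 : (fun l : ℂ => (M.descFactorial m : ℂ) * (a + l * b) ^ (M - m) * b ^ m) =
        fun l => (M.descFactorial m : ℂ) * ((fun l : ℂ => a + l * b) ^ (M - m)) l * b ^ m := by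
      ext l; rfl
    rw [h4, h3, Nat.descFactorial_succ]
    push_cast
    have h5 : M - (m + 1) = M - m - 1 := by omega
    rw [h5]
    ring

/-- bound for all derivatives of `c (L z)^M` on the set where `|L z| ≤ 1`, if `‖L‖ ≤ 1` -/
lemma iter_bound {E : Type*} [NormedAddCommGroup E] [NormedSpace ℂ E] (L : E →L[ℂ] ℂ)
    (hL : ‖L‖ ≤ 1) (c : ℂ) (M k : ℕ) {x : E} (hx : ‖L x‖ ≤ 1) :
    ‖iteratedFDeriv ℂ k (fun z => c * (L z) ^ M) x‖ ≤ ‖c‖ * (M : ℝ) ^ k := by
  have hg : ContDiff ℂ k (fun w : ℂ => c * w ^ M) := by fun_prop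
  have h1 : (fun z => c * (L z) ^ M) = (fun w : ℂ => c * w ^ M) ∘ L := rfl
  rw [h1, ContinuousLinearMap.iteratedFDeriv_comp_right L hg x le_rfl]
  refine (ContinuousMultilinearMap.norm_compContinuousLinearMap_le _ _).trans ?_
  have h2 : ∏ _i : Fin k, ‖L‖ ≤ 1 := by
    rw [Finset.prod_const]
    exact pow_le_one₀ (norm_nonneg _) hL
  have h3 : ‖iteratedFDeriv ℂ k (fun w : ℂ => c * w ^ M) (L x)‖ ≤ ‖c‖ * (M : ℝ) ^ k := by
    rw [norm_iteratedFDeriv_eq_norm_iteratedDeriv]
    have h4 : (fun w : ℂ => c * w ^ M) = fun w : ℂ => c * (0 + w * 1) ^ M := by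
      ext w; simp
    have h5 : iteratedDeriv k (fun w : ℂ => c * w ^ M) (L x) =
        c * ((M.descFactorial k : ℂ) * (L x) ^ (M - k)) := by
      rw [h4, iteratedDeriv_const_mul_field, iter_pow]
      simp
    rw [h5, norm_mul, norm_mul, norm_pow]
    gcongr
    have h6 : ‖(M.descFactorial k : ℂ)‖ ≤ (M : ℝ) ^ k := by
      rw [Complex.norm_natCast]
      exact_mod_cast Nat.descFactorial_le_pow M k
    calc ‖(M.descFactorial k : ℂ)‖ * ‖L x‖ ^ (M - k) ≤ (M : ℝ) ^ k * 1 := by
          gcongr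
          exact pow_le_one₀ (norm_nonneg _) hx
      _ = _ := mul_one _
  calc _ ≤ (‖c‖ * (M : ℝ) ^ k) * 1 := by gcongr
    _ = _ := mul_one _

end Q72.NB
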