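import Mathlib
import Pool.Agent.Q72.NB.Series

/-!
# A smooth ball algebra function with natural boundary on all affine discs
-/

set_option autoImplicit false

open Filter Topology Metric Set

namespace Q72.NB

/-- the basic scale -/
def A (j : ℕ) : ℕ := 2 ^ (4 ^ (j + 1))

/-- the degrees -/
def M (j : ℕ) : ℕ := A j ^ 2

/-- the coefficients -/
noncomputable def c (j : ℕ) : ℝ := Real.exp (-(A j : ℝ))

lemma A_succ (j : ℕ) : A (j + 1) = A j ^ 4 := by
  unfold A
  rw [← pow_mul]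
  congr 1

lemma A_ge (j : ℕ) : 16 + j ≤ A j := by
  induction j with
  | zero => norm_num [A]
  | succ j ih =>
    rw [A_succ]
    have h1 : A j ^ 1 < A j ^ 4 := Nat.pow_lt_pow_right (by omega) (by norm_num)
    rw [pow_one] at h1
    omega

lemma A_add (j i : ℕ) : A j + i ≤ A (i + j) := by
  induction i with
  | zero => simp
  | succ i ih =>
    have e : i + 1 + j = (i + j) + 1 := by ring
    rw [e, A_succ]
    have h0 := A_ge (i + j)
    have h1 : A (i + j) ^ 1 < A (i + j) ^ 4 := Nat.pow_lt_pow_right (by omega) (by norm_num)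
    rw [pow_one] at h1
    omega

lemma c_pos (j : ℕ) : 0 < c j := Real.exp_pos _

lemma summable_cM (k : ℕ) : Summable fun j => c j * (M j : ℝ) ^ k := by
  have h1 : Summable fun j : ℕ => ((2 * k + 2).factorial : ℝ) * (1 / ((j : ℝ) + 1) ^ 2) := by
    apply Summable.mul_left
    have := (summable_nat_add_iff 1).2 (Real.summable_one_div_nat_pow.2 (by norm_num : 1 < 2))
    simpa using this
  refine Summable.of_nonneg_of_le (fun j => by have := c_pos j; positivity) (fun j => ?_) h1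
  have hA : (0 : ℝ) < A j := by
    have := A_ge j
    exact_mod_cast (by omega : 0 < A j)
  have h2 := Real.pow_div_factorial_le_exp (A j : ℝ) hA.le (2 * k + 2)
  have hf : (0 : ℝ) < ((2 * k + 2).factorial : ℝ) := by positivity
  rw [div_le_iff₀ hf] at h2
  have h3 : c j * Real.exp (A j) = 1 := by rw [c, ← Real.exp_add]; simp
  have h4 : (A j : ℝ) ^ (2 * k + 2) * c j ≤ ((2 * k + 2).factorial : ℝ) := by
    calc (A j : ℝ) ^ (2 * k + 2) * c j ≤
        (Real.exp (A j) * ((2 * k + 2).factorial : ℝ)) * c j := by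
          apply mul_le_mul_of_nonneg_right h2 (c_pos j).le
      _ = (c j * Real.exp (A j)) * ((2 * k + 2).factorial : ℝ) := by ring
      _ = _ := by rw [h3, one_mul]
  have h5 : ((j : ℝ) + 1) ^ 2 ≤ (A j : ℝ) ^ 2 := by
    have h6 : (j : ℝ) + 1 ≤ A j := by
      have := A_ge j
      exact_mod_cast (by omega : j + 1 ≤ A j)
    gcongr
  rw [mul_one_div, le_div_iff₀ (by positivity)]
  calc c j * (M j : ℝ) ^ k * ((j : ℝ) + 1) ^ 2 ≤ c j * (M j : ℝ) ^ k * (A j : ℝ) ^ 2 := by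
        apply mul_le_mul_of_nonneg_left h5
        have := c_pos j
        positivity
    _ = (A j : ℝ) ^ (2 * k + 2) * c j := by
        unfold M
        push_cast
        ring
    _ ≤ _ := h4

lemma summable_c : Summable c := by
  have := summable_cM 0
  simpa using this

lemma tail_bound (j : ℕ) : (∑' i, c (i + (j + 1))) * (M j : ℝ) ^ (M j) ≤ 1 := by
  have hA16 : (16 : ℝ) ≤ A j := by
    have := A_ge j
    exact_mod_cast (by omega : 16 ≤ A j)
  have h1 : ∀ i, c (i + (j + 1)) ≤ Real.exp (-(A (j + 1) : ℝ)) * (Real.exp (-1)) ^ i := by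
    intro i
    rw [c, ← Real.exp_nat_mul, ← Real.exp_add]
    apply Real.exp_le_exp.2
    have h2 := A_add (j + 1) i
    have h3 : ((A (j + 1) + i : ℕ) : ℝ) ≤ (A (i + (j + 1)) : ℝ) := by exact_mod_cast h2
    push_cast at h3
    linarith
  have he : Real.exp (-1) < 1 / 2 := by
    rw [Real.exp_neg, inv_lt_comm₀ (Real.exp_pos _) (by norm_num)]
    have := Real.add_one_lt_exp (one_ne_zero)
    norm_num at this ⊢
    linarith
  have hg : HasSum (fun i : ℕ => Real.exp (-(A (j + 1) : ℝ)) * (Real.exp (-1)) ^ i)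
      (Real.exp (-(A (j + 1) : ℝ)) * (1 - Real.exp (-1))⁻¹) :=
    (hasSum_geometric_of_lt_one (Real.exp_pos _).le (by linarith)).mul_left _
  have h4 : ∑' i, c (i + (j + 1)) ≤ Real.exp (-(A (j + 1) : ℝ)) * 2 := by
    have h5 : ∑' i, c (i + (j + 1)) ≤ Real.exp (-(A (j + 1) : ℝ)) * (1 - Real.exp (-1))⁻¹ := by
      rw [← hg.tsum_eq]
      exact ((summable_nat_add_iff (j + 1)).2 summable_c).tsum_le_tsum h1 hg.summable
    refine h5.trans ?_
    apply mul_le_mul_of_nonneg_left _ (Real.exp_pos _).le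
    rw [inv_le_comm₀ (by linarith) (by norm_num)]
    linarith
  have h6 : (M j : ℝ) ^ (M j) ≤ Real.exp (2 * (A j : ℝ) ^ 3) := by
    have hM : (M j : ℝ) = (A j : ℝ) ^ 2 := by unfold M; push_cast; ring
    have hApos : (0 : ℝ) < A j := by linarith
    have h7 : (A j : ℝ) ≤ Real.exp (A j) := by
      have := Real.add_one_le_exp (A j : ℝ)
      linarith
    calc (M j : ℝ) ^ (M j) = (A j : ℝ) ^ (2 * M j) := by rw [hM, ← pow_mul]
      _ ≤ (Real.exp (A j)) ^ (2 * M j) := by gcongr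
      _ = Real.exp (((2 * M j : ℕ) : ℝ) * A j) := by rw [Real.exp_nat_mul]
      _ = Real.exp (2 * (A j : ℝ) ^ 3) := by
          congr 1
          push_cast
          rw [hM]
          ring
  have h8 : Real.exp (-(A (j + 1) : ℝ)) * 2 * Real.exp (2 * (A j : ℝ) ^ 3) ≤ 1 := by
    have h9 : (2 : ℝ) ≤ Real.exp 1 := by
      have := Real.add_one_le_exp (1 : ℝ)
      linarith
    have h10 : Real.exp (-(A (j + 1) : ℝ)) * 2 * Real.exp (2 * (A j : ℝ) ^ 3) ≤
        Real.exp (-(A (j + 1) : ℝ)) * Real.exp 1 * Real.exp (2 * (A j : ℝ) ^ 3) := by gcongr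
    refine h10.trans ?_
    rw [← Real.exp_add, ← Real.exp_add]
    apply Real.exp_le_one_iff.2
    rw [A_succ]
    push_cast
    have h11 : 1 ≤ (A j : ℝ) ^ 3 := one_le_pow₀ (by linarith)
    nlinarith
  calc (∑' i, c (i + (j + 1))) * (M j : ℝ) ^ (M j) ≤
      (Real.exp (-(A (j + 1) : ℝ)) * 2) * Real.exp (2 * (A j : ℝ) ^ 3) := by gcongr
    _ ≤ 1 := h8

/-! ### The function -/

variable {E : Type*} [NormedAddCommGroup E] [InnerProductSpace ℂ E]

/-- the terms -/
noncomputable def t (η : ℕ → E) (j : ℕ) (z : E) : ℂ := (c j : ℂ) * (inner ℂ (η j) z) ^ M j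

/-- the function -/
noncomputable def f (η : ℕ → E) (z : E) : ℂ := ∑' j, t η j z

variable {η : ℕ → E}

lemma t_eq (j : ℕ) : t η j = fun z => (c j : ℂ) * (innerSL ℂ (η j) z) ^ M j := rfl

lemma t_contDiff (j : ℕ) {n : WithTop ℕ∞} : ContDiff ℂ n (t η j) := by
  rw [t_eq]
  exact contDiff_const.mul ((innerSL ℂ (η j)).contDiff.pow _)

lemma norm_c (j : ℕ) : ‖(c j : ℂ)‖ = c j := by
  rw [Complex.norm_real, Real.norm_of_nonneg (c_pos j).le]

lemma t_bound (hη : ∀ j, ‖η j‖ = 1) (k j : ℕ) {x : E} (hx : ‖x‖ ≤ 1) :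
    ‖iteratedFDeriv ℂ k (t η j) x‖ ≤ c j * (M j : ℝ) ^ k := by
  have h1 : ‖innerSL ℂ (η j)‖ ≤ 1 := by rw [innerSL_apply_norm, hη j]
  have h2 : ‖innerSL ℂ (η j) x‖ ≤ 1 := by
    calc _ ≤ ‖innerSL ℂ (η j)‖ * ‖x‖ := ContinuousLinearMap.le_opNorm _ _
      _ ≤ 1 * 1 := by gcongr
      _ = 1 := one_mul _
  have := iter_bound (innerSL ℂ (η j)) h1 (c j : ℂ) (M j) k h2
  rwa [norm_c] at this

lemma t_bound0 (hη : ∀ j, ‖η j‖ = 1) (j : ℕ) {x : E} (hx : ‖x‖ ≤ 1) : ‖t η j x‖ ≤ c j := by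
  have := t_bound hη 0 j hx
  rw [norm_iteratedFDeriv_zero, pow_zero, mul_one] at this
  exact this

lemma t_summable (hη : ∀ j, ‖η j‖ = 1) {x : E} (hx : ‖x‖ ≤ 1) : Summable fun j => t η j x :=
  Summable.of_norm_bounded summable_c (fun j => t_bound0 hη j hx)

/-- All derivatives of `f` on the open ball extend continuously to the closed ball. -/
lemma f_smooth (hη : ∀ j, ‖η j‖ = 1) (k : ℕ) :
    ContinuousOn (fun x => ∑' j, iteratedFDeriv ℂ k (t η j) x) (closedBall 0 1) ∧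
      ∀ x ∈ ball (0 : E) 1, iteratedFDeriv ℂ k (f η) x = ∑' j, iteratedFDeriv ℂ k (t η j) x := by
  refine ⟨?_, ?_⟩
  · apply continuousOn_tsum (u := fun j => c j * (M j : ℝ) ^ k)
    · intro j
      exact ((t_contDiff j (n := (⊤ : ℕ∞))).continuous_iteratedFDeriv
        (by exact_mod_cast le_top)).continuousOn
    · exact summable_cM k
    · intro j x hx
      rw [mem_closedBall_zero_iff] at hx
      exact t_bound hη k j hx
  · intro x hx
    exact iter_tsum isOpen_ball (convex_ball (0 : E) 1).isPreconnected (t η)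
      (fun j => t_contDiff j) (fun k j => c j * (M j : ℝ) ^ k) summable_cM
      (fun k j x hx => t_bound hη k j (mem_ball_zero_iff.1 hx).le) k x hx

lemma f_diff (hη : ∀ j, ‖η j‖ = 1) : DifferentiableOn ℂ (f η) (ball 0 1) := by
  intro x hx
  have h1 : ∀ j, ∀ y ∈ ball (0 : E) 1, HasFDerivAt (t η j) (fderiv ℂ (t η j) y) y := by
    intro j y _
    exact ((t_contDiff j (n := 1)).differentiable (by norm_num) y).hasFDerivAt
  have h2 : ∀ j, ∀ y ∈ ball (0 : E) 1, ‖fderiv ℂ (t η j) y‖ ≤ c j * (M j : ℝ) ^ 1 := by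
    intro j y hy
    have := t_bound hη 1 j (mem_ball_zero_iff.1 hy).le
    rwa [norm_iteratedFDeriv_one] at this
  exact (hasFDerivAt_tsum_of_isPreconnected (summable_cM 1) isOpen_ball
    (convex_ball (0 : E) 1).isPreconnected h1 h2 hx (t_summable hη (mem_ball_zero_iff.1 hx).le)
    hx).differentiableAt.differentiableWithinAt

/-! ### Affine discs -/

lemma affine_facts {a b : E} (hab : ∀ l : ℂ, ‖l‖ = 1 → ‖a + l • b‖ = 1) :
    inner ℂ a b = 0 ∧ ‖a‖ ^ 2 + ‖b‖ ^ 2 = 1 := by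
  have key : ∀ l : ℂ, ‖l‖ = 1 → ‖a‖ ^ 2 + 2 * (l * inner ℂ a b).re + ‖b‖ ^ 2 = 1 := by
    intro l hl
    have h1 := norm_add_sq (𝕜 := ℂ) a (l • b)
    rw [hab l hl, inner_smul_right, norm_smul, hl] at h1
    simp only [one_pow, one_mul] at h1
    rw [h1]
    rfl
  have h1 := key 1 (by simp)
  have h2 := key (-1) (by simp)
  have h3 := key Complex.I (by simp)
  have h4 := key (-Complex.I) (by simp)
  simp only [one_mul, neg_mul, Complex.neg_re, Complex.mul_re, Complex.I_re, Complex.I_im,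
    zero_mul, zero_sub] at h1 h2 h3 h4
  refine ⟨?_, by linarith⟩
  apply Complex.ext
  · simp only [Complex.zero_re]; linarith
  · simp only [Complex.zero_im]; linarith

lemma norm_affine {a b : E} (h0 : inner ℂ a b = 0) (h1 : ‖a‖ ^ 2 + ‖b‖ ^ 2 = 1) {l : ℂ}
    (hl : ‖l‖ ≤ 1) : ‖a + l • b‖ ≤ 1 := by
  have h2 := norm_add_sq (𝕜 := ℂ) a (l • b)
  rw [inner_smul_right, h0, mul_zero, norm_smul] at h2
  simp only [map_zero, mul_zero, add_zero] at h2
  have h3 : ‖a + l • b‖ ^ 2 ≤ 1 := by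
    rw [h2, mul_pow]
    have h4 : ‖l‖ ^ 2 ≤ 1 := pow_le_one₀ (norm_nonneg _) hl
    nlinarith [sq_nonneg ‖b‖]
  nlinarith [norm_nonneg (a + l • b)]

lemma norm_affine_lt {a b : E} (hb : b ≠ 0) (h0 : inner ℂ a b = 0) (h1 : ‖a‖ ^ 2 + ‖b‖ ^ 2 = 1)
    {l : ℂ} (hl : ‖l‖ < 1) : ‖a + l • b‖ < 1 := by
  have h2 := norm_add_sq (𝕜 := ℂ) a (l • b)
  rw [inner_smul_right, h0, mul_zero, norm_smul] at h2
  simp only [map_zero, mul_zero, add_zero] at h2
  have h3 : ‖a + l • b‖ ^ 2 < 1 := by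
    rw [h2, mul_pow]
    have h4 : ‖l‖ ^ 2 < 1 := pow_lt_one₀ (norm_nonneg _) hl (by norm_num)
    have h5 : 0 < ‖b‖ ^ 2 := by
      have := norm_pos_iff.2 hb
      positivity
    nlinarith
  nlinarith [norm_nonneg (a + l • b)]

/-- the terms along an affine line -/
lemma t_line (a b : E) (j : ℕ) (l : ℂ) : t η j (a + l • b) =
    (c j : ℂ) * (inner ℂ (η j) a + l * inner ℂ (η j) b) ^ M j := by
  rw [t, inner_add_right, inner_smul_right]

/-- derivative of a term along a line -/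
lemma t_line_iter (a b : E) (j m : ℕ) (p : ℂ) :
    iteratedDeriv m (fun l : ℂ => t η j (a + l • b)) p =
      (c j : ℂ) * (((M j).descFactorial m : ℂ) * (inner ℂ (η j) (a + p • b)) ^ (M j - m) *
        (inner ℂ (η j) b) ^ m) := by
  have h1 : (fun l : ℂ => t η j (a + l • b)) =
      fun l => (c j : ℂ) * (inner ℂ (η j) a + l * inner ℂ (η j) b) ^ M j := by
    ext l; exact t_line a b j l
  rw [h1, iteratedDeriv_const_mul_field, iter_pow, inner_add_right, inner_smul_right]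

lemma t_line_contDiff (a b : E) (j : ℕ) {n : WithTop ℕ∞} :
    ContDiff ℂ n (fun l : ℂ => t η j (a + l • b)) := by
  have h1 : (fun l : ℂ => t η j (a + l • b)) =
      fun l => (c j : ℂ) * (inner ℂ (η j) a + l * inner ℂ (η j) b) ^ M j := by
    ext l; exact t_line a b j l
  rw [h1]
  fun_prop

lemma desc_lower {M N m : ℕ} (hm : N * m ≤ M) :
    ((N - 1) ^ m * m.factorial : ℕ) ≤ M.descFactorial m := by
  calc (N - 1) ^ m * m.factorial ≤ (N - 1) ^ m * m ^ m := by
        apply Nat.mul_le_mul_left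
        exact Nat.factorial_le_pow m
    _ = ((N - 1) * m) ^ m := by rw [mul_pow]
    _ ≤ (M + 1 - m) ^ m := by
        apply Nat.pow_le_pow_left
        have h1 : (N - 1) * m = N * m - m := by rw [Nat.sub_mul, one_mul]
        omega
    _ ≤ _ := Nat.pow_sub_le_descFactorial M m

/-- Cauchy estimate -/
lemma cauchy {h : ℂ → ℂ} {p : ℂ} {r C : ℝ} (hr : 0 < r) (hd : DifferentiableOn ℂ h (closedBall p r))
    (hC : ∀ z ∈ closedBall p r, ‖h z‖ ≤ C) (m : ℕ) :
    ‖iteratedDeriv m h p‖ ≤ m.factorial * (C * (1 / r) ^ m) := by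
  have hcl : DiffContOnCl ℂ h (ball p r) := by
    apply DifferentiableOn.diffContOnCl
    rw [closure_ball p hr.ne']
    exact hd
  have := Complex.norm_iteratedDeriv_le_of_forall_mem_sphere_norm_le m hr hcl
    (fun z hz => hC z (sphere_subset_closedBall hz))
  refine this.trans (le_of_eq ?_)
  rw [one_div, inv_pow]
  field_simp

/-- If `f ∘ Φ` extended holomorphically across a point of the circle, a contradiction. -/
theorem no_ext (hη : ∀ j, ‖η j‖ = 1)
    (hcl : ∀ p : E, ‖p‖ = 1 → ∀ δ : ℝ, 0 < δ → ∀ J : ℕ, ∃ j, J ≤ j ∧ ‖η j - p‖ < δ)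
    {a b : E} (hb : b ≠ 0) (hab : ∀ l : ℂ, ‖l‖ = 1 → ‖a + l • b‖ = 1) {τ : ℂ} (hτ : ‖τ‖ = 1)
    {R : ℝ} (hR : 0 < R) {h : ℂ → ℂ} (hd : DifferentiableOn ℂ h (ball τ R))
    (heq : ∀ l ∈ ball τ R, ‖l‖ < 1 → h l = f η (a + l • b)) : False := by
  obtain ⟨h0, h1⟩ := affine_facts hab
  have hbn : 0 < ‖b‖ := norm_pos_iff.2 hb
  have hb1 : ‖b‖ ≤ 1 := by nlinarith [sq_nonneg ‖a‖]
  set β : ℝ := ‖b‖ ^ 2 with hβ
  have hβ0 : 0 < β := by positivity
  -- a bound for `h` on a smaller closed disc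
  have hcomp : IsCompact (closedBall τ (R / 2)) := isCompact_closedBall _ _
  have hsub : closedBall τ (R / 2) ⊆ ball τ R := closedBall_subset_ball (by linarith)
  obtain ⟨C, hC⟩ := hcomp.bddAbove_image ((hd.continuousOn.mono hsub).norm)
  have hC' : ∀ z ∈ closedBall τ (R / 2), ‖h z‖ ≤ C := fun z hz => hC ⟨z, hz, rfl⟩
  have hCnn : 0 ≤ C := (norm_nonneg _).trans (hC' τ (mem_closedBall_self (by positivity)))
  set Λ : ℝ := 4 / R with hΛ
  have hΛ0 : 0 < Λ := by positivity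
  set K : ℝ := 2 * (Λ + 1) with hK
  -- choose `N`
  obtain ⟨N, hN⟩ := exists_nat_gt (8 * K / β + 2)
  have hNβ : K ≤ ((N : ℝ) - 1) * β / 8 := by
    have h2 : 8 * K / β ≤ (N : ℝ) - 1 := by linarith
    rw [div_le_iff₀ hβ0] at h2
    linarith
  have hN2 : (2 : ℝ) < N := by
    have : 0 < 8 * K / β := by positivity
    linarith
  have hN2' : 2 < N := by exact_mod_cast hN2
  -- choose `j`
  set δ : ℝ := min (1 / (8 * N)) (β / 2) with hδ
  have hδ0 : 0 < δ := by
    apply lt_min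
    · have : (0 : ℝ) < N := by linarith
      positivity
    · positivity
  obtain ⟨J0, hJ0⟩ := exists_nat_gt (8 / R)
  obtain ⟨J1, hJ1⟩ := pow_unbounded_of_one_lt (C + 1) (by norm_num : (1 : ℝ) < 2)
  set p0 : E := a + τ • b with hp0
  have hp0n : ‖p0‖ = 1 := hab τ hτ
  obtain ⟨j, hj, hjη⟩ := hcl p0 hp0n δ hδ0 (max (max J0 J1) (4 * N) + 1)
  have hjJ0 : J0 ≤ j := by
    have := le_max_left J0 J1
    have := le_max_left (max J0 J1) (4 * N)
    omega
  have hjJ1 : J1 ≤ j := by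
    have := le_max_right J0 J1
    have := le_max_left (max J0 J1) (4 * N)
    omega
  have hjN : 4 * N ≤ j := by
    have := le_max_right (max J0 J1) (4 * N)
    omega
  have hj1 : 1 ≤ j := by omega
  have hAj := A_ge j
  have hAN : 4 * N ≤ A j := by omega
  set m : ℕ := M j / N with hm
  have hNm : N * m ≤ M j := Nat.mul_div_le _ _
  have hMm : M j < N * (m + 1) := by
    have := Nat.lt_mul_div_succ (M j) (by omega : 0 < N)
    exact this
  have hMA : M j = A j ^ 2 := rfl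
  have hm2A : 2 * A j ≤ m := by
    rw [hm, Nat.le_div_iff_mul_le (by omega), hMA]
    nlinarith
  have hmj : J1 ≤ m := by omega
  have hM2 : M j ≤ 2 * N * m := by nlinarith
  -- the point
  have hMpos : (0 : ℝ) < M j := by
    have : 0 < M j := by
      have h2 : 0 < A j := by omega
      rw [hMA]; positivity
    exact_mod_cast this
  have hM16 : 16 * (N : ℝ) ≤ M j := by
    have : 16 * N ≤ M j := by rw [hMA]; nlinarith
    exact_mod_cast this
  have hM8R : 8 / R ≤ M j := by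
    have h2 : (J0 : ℝ) ≤ M j := by
      have : J0 ≤ M j := by
        rw [hMA]; nlinarith
      exact_mod_cast this
    linarith
  set s : ℝ := 1 - 2 / M j with hs
  have hM32 : (32 : ℝ) ≤ M j := by nlinarith
  have hs2 : 2 / (M j : ℝ) ≤ 1 / (8 * N) := by
    rw [div_le_div_iff₀ hMpos (by linarith)]
    linarith
  have hsR : 2 / (M j : ℝ) ≤ R / 4 := by
    rw [div_le_div_iff₀ hMpos (by norm_num)]
    rw [div_le_iff₀ hR] at hM8R
    linarith
  have hs2' : 0 < 2 / (M j : ℝ) := by positivity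
  have hs1 : 2 / (M j : ℝ) ≤ 1 := by
    rw [div_le_one hMpos]; linarith
  set p : ℂ := (s : ℂ) * τ with hp
  have hpn : ‖p‖ = s := by
    rw [hp, norm_mul, hτ, mul_one, Complex.norm_real, Real.norm_of_nonneg (by rw [hs]; linarith)]
  have hpτ : ‖p - τ‖ = 2 / M j := by
    have : p - τ = ((-(2 / (M j : ℝ)) : ℝ) : ℂ) * τ := by
      rw [hp, hs]; push_cast; ring
    rw [this, norm_mul, hτ, mul_one, Complex.norm_real, Real.norm_eq_abs, abs_neg,
      abs_of_pos hs2']
  have hρ : (0 : ℝ) < 1 / M j := by positivity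
  -- the three pieces
  set Q : ℂ → ℂ := fun l => ∑ i ∈ Finset.range (j + 1), t η i (a + l • b) with hQ
  have hQc : ∀ {n : WithTop ℕ∞}, ContDiff ℂ n Q := by
    intro n
    rw [hQ]
    exact ContDiff.sum fun i _ => t_line_contDiff a b i
  set Rem : ℂ → ℂ := fun l => f η (a + l • b) - Q l with hRem
  have hline : ∀ l : ℂ, DifferentiableAt ℂ (fun l : ℂ => a + l • b) l := fun l => by fun_prop
  have hRd : DifferentiableOn ℂ Rem (ball 0 1) := by
    intro l hl
    rw [mem_ball_zero_iff] at hl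
    have h2 : DifferentiableAt ℂ (f η) (a + l • b) :=
      (f_diff hη).differentiableAt (isOpen_ball.mem_nhds
        (mem_ball_zero_iff.2 (norm_affine_lt hb h0 h1 hl)))
    have h3 : DifferentiableAt ℂ (fun l : ℂ => f η (a + l • b)) l :=
      DifferentiableAt.comp (g := f η) l h2 (hline l)
    exact (h3.sub ((hQc (n := 1)).differentiable (by norm_num) l)).differentiableWithinAt
  have hRb : ∀ l : ℂ, ‖l‖ ≤ 1 → ‖Rem l‖ ≤ ∑' i, c (i + (j + 1)) := by
    intro l hl
    have hx := norm_affine h0 h1 hl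
    have hsm := t_summable hη hx
    have h2 : Rem l = ∑' i, t η (i + (j + 1)) (a + l • b) := by
      simp only [hRem, hQ, f]
      rw [← hsm.sum_add_tsum_nat_add (j + 1)]
      ring
    rw [h2]
    exact tsum_of_norm_bounded ((summable_nat_add_iff (j + 1)).2 summable_c).hasSum
      (fun i => t_bound0 hη _ hx)
  -- identity of derivatives
  have hpball : p ∈ ball τ R := by
    rw [mem_ball, dist_eq_norm, hpτ]; linarith
  have hp1 : ‖p‖ < 1 := by rw [hpn, hs]; linarith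
  have hnear : h =ᶠ[𝓝 p] Q + Rem := by
    have e1 : ball τ R ∈ 𝓝 p := isOpen_ball.mem_nhds hpball
    have e2 : ball (0 : ℂ) 1 ∈ 𝓝 p := isOpen_ball.mem_nhds (mem_ball_zero_iff.2 hp1)
    filter_upwards [e1, e2] with l hl1 hl2
    rw [heq l hl1 (mem_ball_zero_iff.1 hl2)]
    simp [hRem]
  have hRa : ContDiffAt ℂ m Rem p :=
    (hRd.analyticAt (isOpen_ball.mem_nhds (mem_ball_zero_iff.2 hp1))).contDiffAt
  have hder : iteratedDeriv m h p = iteratedDeriv m Q p + iteratedDeriv m Rem p := by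
    rw [hnear.iteratedDeriv_eq m, iteratedDeriv_add (hQc.contDiffAt) hRa]
  have hQder : iteratedDeriv m Q p = (c j : ℂ) * (((M j).descFactorial m : ℂ) *
      (inner ℂ (η j) (a + p • b)) ^ (M j - m) * (inner ℂ (η j) b) ^ m) := by
    have h2 : iteratedDeriv m Q p =
        ∑ i ∈ Finset.range (j + 1), iteratedDeriv m (fun l : ℂ => t η i (a + l • b)) p := by
      rw [hQ]
      exact iteratedDeriv_fun_sum fun i _ => (t_line_contDiff a b i).contDiffAt
    rw [h2, Finset.sum_range_succ, Finset.sum_eq_zero, zero_add, t_line_iter]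
    intro i hi
    rw [Finset.mem_range] at hi
    rw [t_line_iter]
    have h3 : M i < m := by
      have h4 : A (i + 1) ≤ A j := by
        have := A_add (i + 1) (j - (i + 1))
        have e : j - (i + 1) + (i + 1) = j := by omega
        rw [e] at this
        omega
      rw [A_succ] at h4
      have h5 : M i ≤ A i ^ 4 := by
        have := A_ge i
        exact Nat.pow_le_pow_right (by omega) (by norm_num)
      omega
    rw [Nat.descFactorial_of_lt h3]
    simp
  -- estimates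
  have hE1 : ‖iteratedDeriv m h p‖ ≤ m.factorial * (C * Λ ^ m) := by
    have hsub2 : closedBall p (R / 4) ⊆ closedBall τ (R / 2) := by
      intro z hz
      rw [mem_closedBall, dist_eq_norm] at *
      calc ‖z - τ‖ = ‖(z - p) + (p - τ)‖ := by congr 1; ring
        _ ≤ ‖z - p‖ + ‖p - τ‖ := norm_add_le _ _
        _ ≤ R / 4 + R / 4 := by rw [hpτ]; linarith
        _ = R / 2 := by ring
    have := cauchy (h := h) (p := p) (r := R / 4) (C := C) (by positivity)
      (hd.mono (hsub2.trans hsub)) (fun z hz => hC' z (hsub2 hz)) m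
    have e : 1 / (R / 4) = Λ := by rw [hΛ]; field_simp
    rwa [e] at this
  have hE2 : ‖iteratedDeriv m Rem p‖ ≤ m.factorial * 1 := by
    have hsub3 : closedBall p (1 / (M j : ℝ)) ⊆ ball 0 1 := by
      intro z hz
      rw [mem_closedBall, dist_eq_norm] at hz
      rw [mem_ball_zero_iff]
      have e1 : (2 : ℝ) / M j = 2 * (1 / M j) := by ring
      calc ‖z‖ = ‖(z - p) + p‖ := by congr 1; ring
        _ ≤ ‖z - p‖ + ‖p‖ := norm_add_le _ _
        _ ≤ 1 / M j + s := by rw [hpn]; linarith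
        _ < 1 := by rw [hs, e1]; linarith
    have := cauchy (h := Rem) (p := p) (r := 1 / (M j : ℝ)) (C := ∑' i, c (i + (j + 1))) hρ
      (hRd.mono hsub3) (fun z hz => hRb z (mem_ball_zero_iff.1 (hsub3 hz)).le) m
    refine this.trans ?_
    apply mul_le_mul_of_nonneg_left _ (by positivity)
    have e : 1 / (1 / (M j : ℝ)) = M j := by field_simp
    rw [e]
    have hmM : m ≤ M j := by
      calc m = 1 * m := (one_mul m).symm
        _ ≤ N * m := Nat.mul_le_mul_right m (by omega)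
        _ ≤ M j := hNm
    have hM1 : (1 : ℝ) ≤ M j := by linarith
    have hT0 : 0 ≤ ∑' i, c (i + (j + 1)) := tsum_nonneg fun i => (c_pos _).le
    calc (∑' i, c (i + (j + 1))) * (M j : ℝ) ^ m ≤ (∑' i, c (i + (j + 1))) * (M j : ℝ) ^ (M j) := by
          gcongr
      _ ≤ 1 := tail_bound j
  -- lower bounds for the inner products
  have hin1 : 1 - 1 / (4 * N) ≤ ‖(inner ℂ (η j) (a + p • b) : ℂ)‖ := by
    have e1 : a + p • b = p0 + (p - τ) • b := by
      rw [hp0, sub_smul]; abel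
    have e2 : (inner ℂ (η j) (a + p • b) : ℂ) = inner ℂ p0 p0 +
        (inner ℂ (η j - p0) p0 + (p - τ) * inner ℂ (η j) b) := by
      rw [e1, inner_add_right, inner_smul_right, inner_sub_left]
      ring
    have e3 : ‖(inner ℂ p0 p0 : ℂ)‖ = 1 := by
      rw [inner_self_eq_norm_sq_to_K, hp0n]; simp
    have e4 : ‖(inner ℂ (η j - p0) p0 : ℂ)‖ ≤ δ := by
      calc _ ≤ ‖η j - p0‖ * ‖p0‖ := norm_inner_le_norm _ _
        _ ≤ δ * 1 := by rw [hp0n]; linarith
        _ = δ := mul_one _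
    have e5 : ‖(p - τ) * (inner ℂ (η j) b : ℂ)‖ ≤ 2 / M j := by
      rw [norm_mul, hpτ]
      have : ‖(inner ℂ (η j) b : ℂ)‖ ≤ 1 := by
        calc _ ≤ ‖η j‖ * ‖b‖ := norm_inner_le_norm _ _
          _ ≤ 1 * 1 := by rw [hη j]; gcongr
          _ = 1 := one_mul _
      calc _ ≤ 2 / (M j : ℝ) * 1 := by gcongr
        _ = _ := mul_one _
    have e6 : ‖(inner ℂ p0 p0 : ℂ)‖ - ‖(inner ℂ (η j - p0) p0 + (p - τ) * inner ℂ (η j) b : ℂ)‖ ≤
        ‖(inner ℂ (η j) (a + p • b) : ℂ)‖ := by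
      rw [e2]
      have := norm_sub_norm_le (inner ℂ p0 p0 : ℂ)
        (-(inner ℂ (η j - p0) p0 + (p - τ) * inner ℂ (η j) b : ℂ))
      rwa [norm_neg, sub_neg_eq_add] at this
    have e7 := norm_add_le (inner ℂ (η j - p0) p0 : ℂ) ((p - τ) * inner ℂ (η j) b : ℂ)
    have e8 : δ ≤ 1 / (8 * N) := min_le_left _ _
    have e9 : (1 : ℝ) / (4 * N) = 1 / (8 * N) + 1 / (8 * N) := by
      field_simp; norm_num
    rw [e9]
    linarith
  have hin2 : β / 2 ≤ ‖(inner ℂ (η j) b : ℂ)‖ := by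
    have e1 : (inner ℂ (η j) b : ℂ) = inner ℂ p0 b + inner ℂ (η j - p0) b := by
      rw [inner_sub_left]; ring
    have e2 : ‖(inner ℂ p0 b : ℂ)‖ = β := by
      rw [hp0, inner_add_left, h0, zero_add, inner_smul_left, norm_mul,
        inner_self_eq_norm_sq_to_K, RCLike.norm_conj, hτ, one_mul]
      simp [hβ]
    have e3 : ‖(inner ℂ (η j - p0) b : ℂ)‖ ≤ δ := by
      calc _ ≤ ‖η j - p0‖ * ‖b‖ := norm_inner_le_norm _ _
        _ ≤ δ * 1 := by gcongr
        _ = δ := mul_one _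
    have e4 : δ ≤ β / 2 := min_le_right _ _
    have e5 : ‖(inner ℂ p0 b : ℂ)‖ - ‖(inner ℂ (η j - p0) b : ℂ)‖ ≤ ‖(inner ℂ (η j) b : ℂ)‖ := by
      rw [e1]
      have := norm_sub_norm_le (inner ℂ p0 b : ℂ) (-(inner ℂ (η j - p0) b : ℂ))
      rwa [norm_neg, sub_neg_eq_add] at this
    linarith
  -- the lower bound for the main term
  have hNpos : (0 : ℝ) < N := by linarith
  set x : ℝ := ‖(inner ℂ (η j) (a + p • b) : ℂ)‖ with hx
  set y : ℝ := ‖(inner ℂ (η j) b : ℂ)‖ with hy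
  have hx0 : 0 ≤ x := norm_nonneg _
  have hx1 : x ≤ 1 := by
    have := norm_affine h0 h1 hp1.le
    calc x ≤ ‖η j‖ * ‖a + p • b‖ := norm_inner_le_norm _ _
      _ ≤ 1 * 1 := by rw [hη j]; gcongr
      _ = 1 := one_mul _
  have hxN : (1 / 2 : ℝ) ≤ x ^ (2 * N) := by
    have e1 : (0 : ℝ) ≤ 1 - 1 / (4 * N) := by
      have : 1 / (4 * (N : ℝ)) ≤ 1 := by
        rw [div_le_one (by positivity)]; linarith
      linarith
    have e2 := one_add_mul_le_pow (a := -(1 / (4 * (N : ℝ)))) (by linarith) (2 * N)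
    calc (1 / 2 : ℝ) = 1 + ((2 * N : ℕ) : ℝ) * (-(1 / (4 * (N : ℝ)))) := by
          push_cast; field_simp; norm_num
      _ ≤ (1 + -(1 / (4 * (N : ℝ)))) ^ (2 * N) := e2
      _ = (1 - 1 / (4 * (N : ℝ))) ^ (2 * N) := by ring
      _ ≤ x ^ (2 * N) := by gcongr
  have hxM : (1 / 2 : ℝ) ^ m ≤ x ^ (M j - m) := by
    calc (1 / 2 : ℝ) ^ m ≤ (x ^ (2 * N)) ^ m := by gcongr
      _ = x ^ (2 * N * m) := by rw [← pow_mul]
      _ ≤ x ^ (M j - m) := pow_le_pow_of_le_one hx0 hx1 (by omega)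
  have hcj : (1 / 2 : ℝ) ^ m ≤ c j := by
    have e1 : Real.exp (-1) ≤ 1 := Real.exp_le_one_iff.2 (by norm_num)
    have e2 : (1 / 2 : ℝ) ≤ Real.exp (-(1 / 2)) := by
      have := Real.add_one_le_exp (-(1 / 2) : ℝ)
      linarith
    have e3 : ((2 * A j : ℕ) : ℝ) ≤ m := by exact_mod_cast hm2A
    push_cast at e3
    calc (1 / 2 : ℝ) ^ m ≤ (Real.exp (-(1 / 2))) ^ m := by gcongr
      _ = Real.exp ((m : ℝ) * (-(1 / 2))) := by rw [Real.exp_nat_mul]
      _ ≤ Real.exp (-(A j : ℝ)) := by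
          apply Real.exp_le_exp.2
          linarith
      _ = c j := rfl
  have hdesc : ((N : ℝ) - 1) ^ m * m.factorial ≤ ((M j).descFactorial m : ℝ) := by
    have e1 := desc_lower hNm
    have e2 : (((N - 1) ^ m * m.factorial : ℕ) : ℝ) ≤ ((M j).descFactorial m : ℝ) := by
      exact_mod_cast e1
    push_cast [Nat.cast_sub (by omega : 1 ≤ N)] at e2
    exact e2
  have hLHS : m.factorial * K ^ m ≤ ‖iteratedDeriv m Q p‖ := by
    rw [hQder, norm_mul, norm_mul, norm_mul, norm_pow, norm_pow, norm_c, Complex.norm_natCast,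
      ← hx, ← hy]
    have hN1 : (0 : ℝ) ≤ (N : ℝ) - 1 := by linarith
    calc m.factorial * K ^ m ≤ m.factorial * (((N : ℝ) - 1) * β / 8) ^ m := by gcongr
      _ = (1 / 2) ^ m * (((N : ℝ) - 1) ^ m * m.factorial * (1 / 2) ^ m * (β / 2) ^ m) := by
          have : ((N : ℝ) - 1) * β / 8 = (1 / 2) * (((N : ℝ) - 1) * (1 / 2) * (β / 2)) := by ring
          rw [this, mul_pow, mul_pow, mul_pow]
          ring
      _ ≤ c j * (((M j).descFactorial m : ℝ) * x ^ (M j - m) * y ^ m) := by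
          have hcnn := (c_pos j).le
          gcongr
  have hfin : m.factorial * K ^ m ≤ m.factorial * (C * Λ ^ m + 1) := by
    have e1 : iteratedDeriv m Q p = iteratedDeriv m h p - iteratedDeriv m Rem p := by
      rw [hder]; ring
    calc m.factorial * K ^ m ≤ ‖iteratedDeriv m Q p‖ := hLHS
      _ ≤ ‖iteratedDeriv m h p‖ + ‖iteratedDeriv m Rem p‖ := by rw [e1]; exact norm_sub_le _ _
      _ ≤ m.factorial * (C * Λ ^ m) + m.factorial * 1 := add_le_add hE1 hE2
      _ = _ := by ring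
  have hfac : (0 : ℝ) < m.factorial := by positivity
  have h10 : K ^ m ≤ C * Λ ^ m + 1 := le_of_mul_le_mul_left hfin hfac
  have h11 : C * Λ ^ m + 1 ≤ (C + 1) * (Λ + 1) ^ m := by
    have e1 : Λ ^ m ≤ (Λ + 1) ^ m := by gcongr; linarith
    have e2 : 1 ≤ (Λ + 1) ^ m := one_le_pow₀ (by linarith)
    nlinarith
  have h12 : (C + 1) * (Λ + 1) ^ m < 2 ^ m * (Λ + 1) ^ m := by
    apply mul_lt_mul_of_pos_right _ (by positivity)
    calc C + 1 < 2 ^ J1 := hJ1
      _ ≤ 2 ^ m := pow_le_pow_right₀ (by norm_num) hmj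
  have h13 : K ^ m = 2 ^ m * (Λ + 1) ^ m := by rw [hK, mul_pow]
  linarith

end Q72.NB
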